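import Pool.Agent.R36.ToughT

/-!
# MP_f8058f_co, Q1: the greatest toughness of a minimally tough co-chordal graph of co-diameter two

It is `1/2`, attained by the net.
-/

set_option autoImplicit false

namespace Pool.Agent.Results.MP_f8058f_co.MaxToughness

open Pool.Agent.R36.Tough
open scoped ENNReal

lemma ne_top_bot {V : Type} {G : SimpleGraph V} (h : CoDiamTwo G) : G ≠ ⊤ ∧ G ≠ ⊥ := by
  unfold CoDiamTwo at h
  rcases subsingleton_or_nontrivial V with hV | hV
  · rw [SimpleGraph.ediam_eq_zero_of_subsingleton] at h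
    exact absurd h (by decide)
  · constructor
    · rintro rfl
      rw [compl_top, SimpleGraph.ediam_bot] at h
      exact absurd h (by decide)
    · rintro rfl
      rw [compl_bot, SimpleGraph.ediam_top] at h
      exact absurd h (by decide)

theorem result : IsGreatest {t : ℝ≥0∞ | ∃ (V : Type) (_ : Fintype V) (G : SimpleGraph V),
    MinimallyTough G ∧ CoChordal G ∧ CoDiamTwo G ∧ toughness G = t} (1 / 2) := by
  constructor
  · refine ⟨Fin 3 × Option (Fin 1), inferInstance, T 1, T_minimallyTough, T_coChordal,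
      T_coDiamTwo le_rfl, ?_⟩
    rw [toughness_T le_rfl, one_div]
    norm_num
  · rintro t ⟨V, _, G, h1, h2, h3, rfl⟩
    obtain ⟨h4, h5⟩ := ne_top_bot h3
    obtain ⟨ℓ, hℓ, ⟨e⟩⟩ := iso_T_of_minimallyTough h2 h3 h1 h4 h5
    rw [toughness_iso e, toughness_T hℓ, one_div]
    apply ENNReal.inv_le_inv.2
    have : (1 : ℝ≥0∞) ≤ ℓ := by exact_mod_cast hℓ
    calc (2 : ℝ≥0∞) = 1 + 1 := by norm_num
      _ ≤ ℓ + 1 := by gcongr

end Pool.Agent.Results.MP_f8058f_co.MaxToughness
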